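import Pool.Agent.W539.DI.Defs
import Pool.Agent.R929.DH.Defs

/-!
# Semiample classes
-/

namespace Pool.Agent.N214.QR

open Pool.Agent.W539.DI

variable {n : ℕ}

/-- The real class `L` of type `(1, 1)` has the cohomological properties of (a positive real multiple
of) the first Chern class of a semiample line bundle: the Hodge-Riemann bilinear relations hold for
the products `L ^ k * ω ^ l` on the cohomology modulo the classes killed by `L ^ k`, that is, on the
restrictions of classes of `X` to a complete intersection of `k` general members of the linear system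
of a power of the line bundle. -/
structure Semiample (X : KRing n) (L : X.R) : Prop where
  mem : L ∈ X.H (1, 1)
  real : X.bar L = L
  hr : ∀ (p q : ℤ) (k l : ℕ), p + q + k + l = n → ∀ x ∈ X.H (p, q),
    X.ω ^ (l + 1) * (L ^ k * x) = 0 → L ^ k * x ≠ 0 →
    ∃ r : ℝ, 0 < r ∧ Complex.I ^ (p - q) * (-1 : ℂ) ^ ((p + q) * (p + q - 1) / 2) *
      X.tr (L ^ k * (X.ω ^ l * (x * X.bar x))) = (r : ℂ)

/-- The rank of the multiplication by `L ^ k` on the classes of type `(p, q)`. -/
noncomputable def powRank (X : KRing n) (L : X.R) (k : ℕ) (p q : ℤ) : ℕ :=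
  Module.finrank ℂ (Submodule.map (LinearMap.mulLeft ℂ (L ^ k)) (X.H (p, q)))

end Pool.Agent.N214.QR
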