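import Pool.Agent.N214.QR.Main

/-!
# Fivefolds
-/

open scoped ComplexConjugate
open Module

namespace Pool.Agent.N214.QR

open Pool.Agent.W539.DI Pool.Agent.R929.DH

/-- The Chern classes of a smooth projective variety of dimension `n`, with the theorem of
Gauss-Bonnet and the formula of Libgober and Wood
`∑ (-1)^{p+q} (p - n/2)^2 h^{p,q} = (n / 12) c_n + (1 / 6) c_1 c_{n-1}`. -/
structure ChernClasses {n : ℕ} (X : KRing n) where
  c : ℕ → X.R
  mem : ∀ i : ℕ, c i ∈ X.H (i, i)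
  zero : c 0 = 1
  one : c 1 = X.c
  gauss_bonnet : X.tr (c n) = ∑ p ∈ Finset.range (n + 1), ∑ q ∈ Finset.range (n + 1),
    (-1 : ℂ) ^ (p + q) * (X.h p q : ℂ)
  libgober_wood : ∑ p ∈ Finset.range (n + 1), ∑ q ∈ Finset.range (n + 1),
    (-1 : ℂ) ^ (p + q) * ((p : ℂ) - n / 2) ^ 2 * (X.h p q : ℂ) =
      (n : ℂ) / 12 * X.tr (c n) + 1 / 6 * X.tr (c 1 * c (n - 1))

/-- The Euler number of a smooth divisor of class `m L`, which is
`∫ m L (c_{n-1} - m L c_{n-2} + m² L² c_{n-3} - ...)` by the adjunction formula. -/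
noncomputable def divisorEuler {n : ℕ} {X : KRing n} (C : ChernClasses X) (L : X.R) (m : ℕ) : ℂ :=
  ∑ j ∈ Finset.range n, (-1 : ℂ) ^ j * (m : ℂ) ^ (j + 1) * X.tr (L ^ (j + 1) * C.c (n - 1 - j))

variable {n : ℕ} {X Y : KRing n} {L : X.R} {L' : Y.R}

theorem chern_number (C : ChernClasses X) (C' : ChernClasses Y) (hn : 0 < n) (S : Set ℕ)
    (hS : S.Infinite) (h : ∀ m ∈ S, divisorEuler C L m = divisorEuler C' L' m) :
    X.tr (L * C.c (n - 1)) = Y.tr (L' * C'.c (n - 1)) := by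
  classical
  let P : Polynomial ℂ := ∑ j ∈ Finset.range n, Polynomial.monomial (j + 1)
    ((-1 : ℂ) ^ j * (X.tr (L ^ (j + 1) * C.c (n - 1 - j)) - Y.tr (L' ^ (j + 1) * C'.c (n - 1 - j))))
  have hP : P = 0 := by
    refine Polynomial.eq_zero_of_infinite_isRoot P ?_
    have hinj : Function.Injective (fun m : ℕ => (m : ℂ)) := Nat.cast_injective
    refine (hS.image hinj.injOn).mono ?_
    rintro _ ⟨m, hm, rfl⟩
    have h1 := h m hm
    unfold divisorEuler at h1
    rw [← sub_eq_zero, ← Finset.sum_sub_distrib] at h1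
    show Polynomial.IsRoot P (m : ℂ)
    rw [Polynomial.IsRoot, Polynomial.eval_finsetSum, ← h1]
    refine Finset.sum_congr rfl fun j _ => ?_
    rw [Polynomial.eval_monomial]
    ring
  have h1 : P.coeff 1 = 0 := by rw [hP, Polynomial.coeff_zero]
  rw [Polynomial.finsetSum_coeff, Finset.sum_eq_single 0] at h1
  · rw [Polynomial.coeff_monomial] at h1
    simp only [zero_add, pow_one, pow_zero, one_mul, Nat.sub_zero, if_true] at h1
    exact sub_eq_zero.1 h1
  · intro j _ hj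
    rw [Polynomial.coeff_monomial, if_neg (by omega)]
  · intro h0
    exfalso
    apply h0
    rw [Finset.mem_range]
    exact hn

theorem chern_number' (C : ChernClasses X) (C' : ChernClasses Y) (hn : 0 < n) (S : Set ℕ)
    (hS : S.Infinite) (h : ∀ m ∈ S, divisorEuler C L m = divisorEuler C' L' m)
    (hc : (L = X.c ∧ L' = Y.c) ∨ (L = -X.c ∧ L' = -Y.c)) :
    X.tr (C.c 1 * C.c (n - 1)) = Y.tr (C'.c 1 * C'.c (n - 1)) := by
  have h1 := chern_number C C' hn S hS h
  rw [C.one, C'.one]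
  rcases hc with ⟨h2, h3⟩ | ⟨h2, h3⟩
  · rw [h2, h3] at h1
    exact h1
  · rw [h2, h3, neg_mul, neg_mul, map_neg, map_neg, neg_inj] at h1
    exact h1

/-- The combination of the Hodge numbers which is determined by the Chern numbers. -/
theorem lw_eq (C : ChernClasses X) (C' : ChernClasses Y)
    (h : X.tr (C.c 1 * C.c (n - 1)) = Y.tr (C'.c 1 * C'.c (n - 1))) :
    ∑ p ∈ Finset.range (n + 1), ∑ q ∈ Finset.range (n + 1),
      (-1 : ℤ) ^ (p + q) * (3 * (2 * (p : ℤ) - n) ^ 2 - n) * (X.h p q : ℤ) =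
    ∑ p ∈ Finset.range (n + 1), ∑ q ∈ Finset.range (n + 1),
      (-1 : ℤ) ^ (p + q) * (3 * (2 * (p : ℤ) - n) ^ 2 - n) * (Y.h p q : ℤ) := by
  have key : ∀ (Z : KRing n) (D : ChernClasses Z),
      ∑ p ∈ Finset.range (n + 1), ∑ q ∈ Finset.range (n + 1),
        (-1 : ℂ) ^ (p + q) * (3 * (2 * (p : ℂ) - n) ^ 2 - n) * (Z.h p q : ℂ) =
        2 * Z.tr (D.c 1 * D.c (n - 1)) := by
    intro Z D
    have h1 := D.libgober_wood
    rw [D.gauss_bonnet] at h1
    have h2 : ∑ p ∈ Finset.range (n + 1), ∑ q ∈ Finset.range (n + 1),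
        (-1 : ℂ) ^ (p + q) * (3 * (2 * (p : ℂ) - n) ^ 2 - n) * (Z.h p q : ℂ) =
        12 * (∑ p ∈ Finset.range (n + 1), ∑ q ∈ Finset.range (n + 1),
          (-1 : ℂ) ^ (p + q) * ((p : ℂ) - n / 2) ^ 2 * (Z.h p q : ℂ)) -
        n * ∑ p ∈ Finset.range (n + 1), ∑ q ∈ Finset.range (n + 1),
          (-1 : ℂ) ^ (p + q) * (Z.h p q : ℂ) := by
      rw [Finset.mul_sum, Finset.mul_sum, ← Finset.sum_sub_distrib]
      refine Finset.sum_congr rfl fun p _ => ?_
      rw [Finset.mul_sum, Finset.mul_sum, ← Finset.sum_sub_distrib]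
      refine Finset.sum_congr rfl fun q _ => ?_
      ring
    rw [h2, h1]
    ring
  have h3 := key X C
  have h4 := key Y C'
  rw [h] at h3
  rw [← h4] at h3
  exact_mod_cast h3

theorem five {X Y : KRing 5} {L : X.R} {L' : Y.R} (Φ : FM X Y) (hX : Semiample X L)
    (hY : Semiample Y L') (h : Intertwines Φ L L') (C : ChernClasses X) (C' : ChernClasses Y)
    (hch : X.tr (C.c 1 * C.c 4) = Y.tr (C'.c 1 * C'.c 4))
    (hk1 : kerDim X L 2 1 0 = kerDim Y L' 2 1 0)
    (hk2 : kerDim X L 1 2 0 = kerDim Y L' 1 2 0) (p q : ℤ) : X.h p q = Y.h p q := by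
  by_cases hout : p < 0 ∨ q < 0 ∨ ((5 : ℕ) : ℤ) < p ∨ ((5 : ℕ) : ℤ) < q
  · rw [X.h_zero hout, Y.h_zero hout]
  push_cast at hout
  have h10 : X.h 1 0 = Y.h 1 0 := by
    rw [← powRank_add_kerDim X L 2, ← powRank_add_kerDim Y L' 2, hk1,
      edge Φ hX hY h 2 1 (by norm_num)]
  have h20 : X.h 2 0 = Y.h 2 0 := by
    rw [← powRank_add_kerDim X L 1, ← powRank_add_kerDim Y L' 1, hk2,
      edge Φ hX hY h 1 2 (by norm_num)]
  obtain ⟨a1, a2⟩ := Φ.hodge_sums 4 1 rfl
  obtain ⟨b1, b2⟩ := Φ.hodge_sums 3 2 rfl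
  obtain ⟨-, c2⟩ := Φ.hodge_sums 5 0 rfl
  rw [X.sum_first _ _ (by norm_num) (by norm_num), Y.sum_first _ _ (by norm_num) (by norm_num)]
    at a1 a2 b1 b2 c2
  norm_num at a1 a2 b1 b2 c2
  have z1 : ∀ Z : KRing 5, Z.h 2 (-1) = 0 := fun Z => Z.h_neg (by norm_num)
  have z2 : ∀ Z : KRing 5, Z.h 3 (-2) = 0 := fun Z => Z.h_neg (by norm_num)
  rw [z1, z1] at a2
  rw [z2, z2] at c2
  have t4 := Φ.total_all 4 0 {0, 1} (by
    intro k hk
    simp only [Finset.mem_insert, Finset.mem_singleton] at hk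
    push_cast
    omega)
  have t2 := Φ.total_all 2 0 {0, 1, 2, 3} (by
    intro k hk
    simp only [Finset.mem_insert, Finset.mem_singleton] at hk
    push_cast
    omega)
  have t0 := Φ.total_all 0 0 {0, 1, 2, 3, 4, 5} (by
    intro k hk
    simp only [Finset.mem_insert, Finset.mem_singleton] at hk
    push_cast
    omega)
  rw [Finset.sum_insert (by decide), Finset.sum_singleton, Finset.sum_insert (by decide),
    Finset.sum_singleton] at t4
  rw [Finset.sum_insert (by decide), Finset.sum_insert (by decide), Finset.sum_insert (by decide),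
    Finset.sum_singleton, Finset.sum_insert (by decide), Finset.sum_insert (by decide),
    Finset.sum_insert (by decide), Finset.sum_singleton] at t2
  rw [Finset.sum_insert (by decide), Finset.sum_insert (by decide), Finset.sum_insert (by decide),
    Finset.sum_insert (by decide), Finset.sum_insert (by decide), Finset.sum_singleton,
    Finset.sum_insert (by decide), Finset.sum_insert (by decide), Finset.sum_insert (by decide),
    Finset.sum_insert (by decide), Finset.sum_insert (by decide), Finset.sum_singleton] at t0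
  norm_num at t4 t2 t0
  -- the symmetries
  have sw : ∀ (Z : KRing 5) (p q : ℤ), Z.h p q = Z.h q p := fun Z => Z.h_swap
  have s55 : ∀ Z : KRing 5, Z.h 5 5 = Z.h 0 0 := fun Z => by
    have := Z.h_symm (p := 0) (q := 0) 5 (by norm_num)
    norm_num at this
    exact this.symm
  have s44 : ∀ Z : KRing 5, Z.h 4 4 = Z.h 1 1 := fun Z => by
    have := Z.h_symm (p := 1) (q := 1) 3 (by norm_num)
    norm_num at this
    exact this.symm
  have s33 : ∀ Z : KRing 5, Z.h 3 3 = Z.h 2 2 := fun Z => by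
    have := Z.h_symm (p := 2) (q := 2) 1 (by norm_num)
    norm_num at this
    exact this.symm
  have s54 : ∀ Z : KRing 5, Z.h 5 4 = Z.h 1 0 := fun Z => by
    have := Z.h_symm (p := 1) (q := 0) 4 (by norm_num)
    norm_num at this
    exact this.symm
  have s43 : ∀ Z : KRing 5, Z.h 4 3 = Z.h 2 1 := fun Z => by
    have := Z.h_symm (p := 2) (q := 1) 2 (by norm_num)
    norm_num at this
    exact this.symm
  have s53 : ∀ Z : KRing 5, Z.h 5 3 = Z.h 2 0 := fun Z => by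
    have := Z.h_symm (p := 2) (q := 0) 3 (by norm_num)
    norm_num at this
    exact this.symm
  have s42 : ∀ Z : KRing 5, Z.h 4 2 = Z.h 3 1 := fun Z => by
    have := Z.h_symm (p := 3) (q := 1) 1 (by norm_num)
    norm_num at this
    exact this.symm
  have s52 : ∀ Z : KRing 5, Z.h 5 2 = Z.h 3 0 := fun Z => by
    have := Z.h_symm (p := 3) (q := 0) 2 (by norm_num)
    norm_num at this
    exact this.symm
  have s51 : ∀ Z : KRing 5, Z.h 5 1 = Z.h 4 0 := fun Z => by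
    have := Z.h_symm (p := 4) (q := 0) 1 (by norm_num)
    norm_num at this
    exact this.symm
  have r01 : ∀ Z : KRing 5, Z.h 0 1 = Z.h 1 0 := fun Z => sw Z 0 1
  have r02 : ∀ Z : KRing 5, Z.h 0 2 = Z.h 2 0 := fun Z => sw Z 0 2
  have r03 : ∀ Z : KRing 5, Z.h 0 3 = Z.h 3 0 := fun Z => sw Z 0 3
  have r04 : ∀ Z : KRing 5, Z.h 0 4 = Z.h 4 0 := fun Z => sw Z 0 4
  have r05 : ∀ Z : KRing 5, Z.h 0 5 = Z.h 5 0 := fun Z => sw Z 0 5
  have r12 : ∀ Z : KRing 5, Z.h 1 2 = Z.h 2 1 := fun Z => sw Z 1 2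
  have r13 : ∀ Z : KRing 5, Z.h 1 3 = Z.h 3 1 := fun Z => sw Z 1 3
  have r14 : ∀ Z : KRing 5, Z.h 1 4 = Z.h 4 1 := fun Z => sw Z 1 4
  have r15 : ∀ Z : KRing 5, Z.h 1 5 = Z.h 4 0 := fun Z => (sw Z 1 5).trans (s51 Z)
  have r23 : ∀ Z : KRing 5, Z.h 2 3 = Z.h 3 2 := fun Z => sw Z 2 3
  have r24 : ∀ Z : KRing 5, Z.h 2 4 = Z.h 3 1 := fun Z => (sw Z 2 4).trans (s42 Z)
  have r25 : ∀ Z : KRing 5, Z.h 2 5 = Z.h 3 0 := fun Z => (sw Z 2 5).trans (s52 Z)
  have r34 : ∀ Z : KRing 5, Z.h 3 4 = Z.h 2 1 := fun Z => (sw Z 3 4).trans (s43 Z)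
  have r35 : ∀ Z : KRing 5, Z.h 3 5 = Z.h 2 0 := fun Z => (sw Z 3 5).trans (s53 Z)
  have r45 : ∀ Z : KRing 5, Z.h 4 5 = Z.h 1 0 := fun Z => (sw Z 4 5).trans (s54 Z)
  have lw := lw_eq C C' hch
  simp only [Finset.sum_range_succ, Finset.sum_range_zero] at lw
  norm_num at lw
  simp only [s55, s44, s33, s54, s43, s53, s42, s52, s51, r01, r02, r03, r04, r05, r12, r13, r14,
    r15, r23, r24, r25, r34, r35, r45, X.h00, Y.h00] at lw t4 t2 t0 a1 a2 b1 b2 c2
  have k40 : X.h 4 0 = Y.h 4 0 := by omega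
  have k31 : X.h 3 1 = Y.h 3 1 := by omega
  have k50 : X.h 5 0 = Y.h 5 0 := by omega
  have k30 : X.h 3 0 = Y.h 3 0 := by omega
  have k41 : X.h 4 1 = Y.h 4 1 := by omega
  have k21 : X.h 2 1 = Y.h 2 1 := by omega
  have k32 : X.h 3 2 = Y.h 3 2 := by omega
  have k11 : X.h 1 1 = Y.h 1 1 := by omega
  have k22 : X.h 2 2 = Y.h 2 2 := by omega
  have hp0 : 0 ≤ p := by omega
  have hq0 : 0 ≤ q := by omega
  have hp5 : p ≤ 5 := by omega
  have hq5 : q ≤ 5 := by omega
  interval_cases p <;> interval_cases q <;>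
    simp only [s55, s44, s33, s54, s43, s53, s42, s52, s51, r01, r02, r03, r04, r05, r12, r13, r14,
      r15, r23, r24, r25, r34, r35, r45, X.h00, Y.h00, h10, h20, k40, k31, k50, k30, k41, k21, k32,
      k11, k22]

end Pool.Agent.N214.QR
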