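import Pool.Agent.N214.QR.Trans

/-!
# Derived invariance of the ranks of the powers of a semiample class
-/

open scoped ComplexConjugate
open Module

namespace Pool.Agent.N214.QR

open Pool.Agent.W539.DI Pool.Agent.R929.DH

/-- The dimension of the space of the classes of type `(p, q)` which are killed by `L ^ k`. -/
noncomputable def kerDim {n : ℕ} (X : KRing n) (L : X.R) (k : ℕ) (p q : ℤ) : ℕ :=
  Module.finrank ℂ (X.H (p, q) ⊓ LinearMap.ker (LinearMap.mulLeft ℂ (L ^ k)) : Submodule ℂ X.R)

variable {n : ℕ}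

theorem powRank_add_kerDim (X : KRing n) (L : X.R) (k : ℕ) (p q : ℤ) :
    powRank X L k p q + kerDim X L k p q = X.h p q :=
  finrank_map_add _ _

theorem powRank_van (X : KRing n) (L : X.R) (k : ℕ) {p q : ℤ} (h : p < 0 ∨ q < 0) :
    powRank X L k p q = 0 := by
  unfold powRank
  rw [X.van p q h, Submodule.map_bot, finrank_bot]

theorem pow_van {X : KRing n} {L : X.R} (hL : L ∈ X.H (1, 1)) {k : ℕ} (h : n < k) : L ^ k = 0 := by
  have h1 := X.pow_mem hL k
  rw [X.van_top (by left; omega), Submodule.mem_bot] at h1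
  exact h1

theorem range_sum (X : KRing n) (L : X.R) (k : ℕ) {m a b : ℕ} (h : m ≤ n) (hab : a + b = m)
    (c : ℤ) (hc : 0 < c) :
    ∑ i ∈ Finset.range m, powRank X L k (a - c - 2 * i) (b - c - 2 * i) =
      ∑ i ∈ Finset.range n, powRank X L k (a - c - 2 * i) (b - c - 2 * i) := by
  refine Finset.sum_subset (fun i hi => ?_) (fun i _ hi => ?_)
  · rw [Finset.mem_range] at hi ⊢
    omega
  · rw [Finset.mem_range] at hi
    apply powRank_van
    left
    omega

variable {X Y : KRing n} {L : X.R} {L' : Y.R}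

theorem sums (Φ : FM X Y) (hX : Semiample X L) (hY : Semiample Y L') (h : Intertwines Φ L L')
    (a b k : ℕ) (hab : a + b + k = n) :
    (∑ i ∈ Finset.range n, powRank X L k (a - 1 - 2 * i) (b - 1 - 2 * i) =
      ∑ i ∈ Finset.range n, powRank Y L' k (a - 1 - 2 * i) (b - 1 - 2 * i)) ∧
    (powRank X L k a b + 2 * ∑ i ∈ Finset.range n, powRank X L k (a - 2 - 2 * i) (b - 2 - 2 * i) =
      powRank Y L' k a b +
        2 * ∑ i ∈ Finset.range n, powRank Y L' k (a - 2 - 2 * i) (b - 2 - 2 * i)) := by
  by_cases hne : L ^ k = 0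
  · have hne' := (pow_ne_iff Φ h k).1 hne
    simp only [powRank_zero hne, powRank_zero hne', and_self]
  · have hne' : L' ^ k ≠ 0 := fun h0 => hne ((pow_ne_iff Φ h k).2 h0)
    have h1 := (quotFM (m := a + b) Φ h hX hY hab hne hne').hodge_sums a b rfl
    simp only [quot_h] at h1
    rw [range_sum X L k (by omega) rfl 1 one_pos, range_sum Y L' k (by omega) rfl 1 one_pos,
      range_sum X L k (by omega) rfl 2 two_pos, range_sum Y L' k (by omega) rfl 2 two_pos] at h1
    exact h1

theorem column (Φ : FM X Y) (hX : Semiample X L) (hY : Semiample Y L') (h : Intertwines Φ L L')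
    (k : ℕ) (d : ℤ) :
    ∑ j ∈ Finset.Icc (0 : ℤ) n, powRank X L k (d + j) j =
      ∑ j ∈ Finset.Icc (0 : ℤ) n, powRank Y L' k (d + j) j := by
  by_cases hne : L ^ k = 0
  · have hne' := (pow_ne_iff Φ h k).1 hne
    simp only [powRank_zero hne, powRank_zero hne']
  · have hne' : L' ^ k ≠ 0 := fun h0 => hne ((pow_ne_iff Φ h k).2 h0)
    have hk : k ≤ n := by
      by_contra hcon
      exact hne (pow_van hX.mem (by omega))
    have h1 := (quotFM (m := n - k) Φ h hX hY (by omega) hne hne').total_all d 0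
      (Finset.Icc (0 : ℤ) n) (by
        intro j hj
        rw [Finset.mem_Icc] at hj
        omega)
    simp only [quot_h, zero_add] at h1
    exact h1

theorem edge (Φ : FM X Y) (hX : Semiample X L) (hY : Semiample Y L') (h : Intertwines Φ L L')
    (k : ℕ) (p : ℤ) (hp : p + 2 + k = n) : powRank X L k p 0 = powRank Y L' k p 0 := by
  by_cases h0 : p < 0
  · rw [powRank_van X L k (Or.inl h0), powRank_van Y L' k (Or.inl h0)]
  by_cases hne : L ^ k = 0
  · have hne' := (pow_ne_iff Φ h k).1 hne
    rw [powRank_zero hne, powRank_zero hne']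
  · have hne' : L' ^ k ≠ 0 := fun h0 => hne ((pow_ne_iff Φ h k).2 h0)
    have h1 := ((quotFM (m := n - k) Φ h hX hY (by omega) hne hne').edge (by omega)).1
    simp only [quot_h] at h1
    have e : (((n - k : ℕ) : ℤ)) - 2 = p := by omega
    rw [e] at h1
    exact h1

/-- The numbers of holomorphic forms. -/
theorem forms (Φ : FM X Y) (hX : Semiample X L) (hY : Semiample Y L') (h : Intertwines Φ L L')
    (p : ℤ) (hk : ∀ k : ℕ, p + 2 + k = n → kerDim X L k p 0 = kerDim Y L' k p 0) :
    X.h p 0 = Y.h p 0 := by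
  by_cases h0 : p < 0 ∨ (n : ℤ) < p
  · rw [X.h_zero (by omega), Y.h_zero (by omega)]
  by_cases h2 : p + 2 ≤ n
  · obtain ⟨k, hkn⟩ := Int.eq_ofNat_of_zero_le (show 0 ≤ (n : ℤ) - p - 2 by omega)
    have e1 := edge Φ hX hY h k p (by omega)
    have e2 := hk k (by omega)
    rw [← powRank_add_kerDim X L k, ← powRank_add_kerDim Y L' k, e1, e2]
  · have t := Φ.total_all p 0 {0, 1} (by
      intro j hj
      simp only [Finset.mem_insert, Finset.mem_singleton] at hj
      omega)
    rw [Finset.sum_insert (by decide), Finset.sum_singleton, Finset.sum_insert (by decide),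
      Finset.sum_singleton] at t
    simp only [add_zero, zero_add] at t
    by_cases h3 : p = n
    · subst h3
      rw [X.h_zero (p := (n : ℤ) + 1) (by omega), Y.h_zero (p := (n : ℤ) + 1) (by omega)] at t
      exact t
    · have s : ∀ Z : KRing n, Z.h p 0 = Z.h (p + 1) 1 := fun Z => by
        have := Z.h_symm (p := p) (q := 0) 1 (by push_cast; omega)
        simpa using this
      rw [← s X, ← s Y] at t
      omega

end Pool.Agent.N214.QR
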