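import Pool.Agent.N214.QR.Defs
import Pool.Agent.W539.DI.Cor
import Pool.Agent.R929.DH.Herm

/-!
# The quotient of the cohomology ring by the annihilator of `L ^ k`
-/

open scoped ComplexConjugate
open Module

namespace Pool.Agent.N214.QR

open Pool.Agent.W539.DI Pool.Agent.R929.DH

section lift

variable {R A B : Type*} [AddCommGroup R] [Module ℂ R] [AddCommGroup A] [Module ℂ A]
  [AddCommGroup B] [Module ℂ B] {σ : ℂ →+* ℂ}

/-- A semilinear map which kills the kernel of a surjective linear map. -/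
noncomputable def liftS (π : R →ₗ[ℂ] A) (hπ : Function.Surjective π) (f : R →ₛₗ[σ] B)
    (h : ∀ x, π x = 0 → f x = 0) : A →ₛₗ[σ] B where
  toFun a := f (Function.surjInv hπ a)
  map_add' a b := by
    rw [← map_add, ← sub_eq_zero, ← map_sub]
    apply h
    rw [map_sub, map_add, Function.surjInv_eq hπ (a + b), Function.surjInv_eq hπ a,
      Function.surjInv_eq hπ b, sub_self]
  map_smul' c a := by
    rw [← LinearMap.map_smulₛₗ, ← sub_eq_zero, ← map_sub]
    apply h
    rw [map_sub, map_smul, Function.surjInv_eq hπ (c • a), Function.surjInv_eq hπ a, sub_self]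

theorem liftS_apply (π : R →ₗ[ℂ] A) (hπ : Function.Surjective π) (f : R →ₛₗ[σ] B)
    (h : ∀ x, π x = 0 → f x = 0) (x : R) : liftS π hπ f h (π x) = f x := by
  show f (Function.surjInv hπ (π x)) = f x
  rw [← sub_eq_zero, ← map_sub]
  apply h
  rw [map_sub, Function.surjInv_eq hπ (π x), sub_self]

end lift

variable {n : ℕ}

/-- The classes killed by `L ^ k`. -/
def annI (X : KRing n) (L : X.R) (hL : L ∈ X.H (1, 1)) (k : ℕ) : Ideal X.R where
  carrier := {x | L ^ k * x = 0}
  add_mem' := fun {a b} ha hb => by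
    show L ^ k * (a + b) = 0
    rw [mul_add, show L ^ k * a = 0 from ha, show L ^ k * b = 0 from hb, add_zero]
  zero_mem' := mul_zero _
  smul_mem' := fun c x hx => by
    show L ^ k * (c * x) = 0
    rw [← mul_assoc, pow_central hL, mul_assoc, show L ^ k * x = 0 from hx, mul_zero]

theorem mem_annI {X : KRing n} {L : X.R} {hL : L ∈ X.H (1, 1)} {k : ℕ} {x : X.R} :
    x ∈ annI X L hL k ↔ L ^ k * x = 0 := Iff.rfl

instance annI_two (X : KRing n) (L : X.R) (hL : L ∈ X.H (1, 1)) (k : ℕ) :
    (annI X L hL k).IsTwoSided where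
  mul_mem_of_left := fun {a} b ha => by
    rw [mem_annI] at ha ⊢
    rw [← mul_assoc, ha, zero_mul]

/-- The quotient ring. -/
abbrev Qt (X : KRing n) (L : X.R) (hL : L ∈ X.H (1, 1)) (k : ℕ) : Type := X.R ⧸ annI X L hL k

/-- The quotient map. -/
noncomputable def pr (X : KRing n) (L : X.R) (hL : L ∈ X.H (1, 1)) (k : ℕ) :
    X.R →ₐ[ℂ] Qt X L hL k := Ideal.Quotient.mkₐ ℂ (annI X L hL k)

variable {X : KRing n} {L : X.R} {hL : L ∈ X.H (1, 1)} {k : ℕ}

theorem pr_surj : Function.Surjective (pr X L hL k) := Ideal.Quotient.mkₐ_surjective ℂ _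

theorem pr_zero {x : X.R} : pr X L hL k x = 0 ↔ L ^ k * x = 0 := by
  rw [← mem_annI (hL := hL)]
  exact Ideal.Quotient.eq_zero_iff_mem

/-- The bigrading. -/
noncomputable def HQ (X : KRing n) (L : X.R) (hL : L ∈ X.H (1, 1)) (k : ℕ) (pq : ℤ × ℤ) :
    Submodule ℂ (Qt X L hL k) := Submodule.map (pr X L hL k).toLinearMap (X.H pq)

theorem mem_HQ {pq : ℤ × ℤ} {a : Qt X L hL k} :
    a ∈ HQ X L hL k pq ↔ ∃ x ∈ X.H pq, pr X L hL k x = a := Iff.rfl

theorem pr_mem {pq : ℤ × ℤ} {x : X.R} (hx : x ∈ X.H pq) : pr X L hL k x ∈ HQ X L hL k pq :=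
  ⟨x, hx, rfl⟩

instance : FiniteDimensional ℂ (Qt X L hL k) :=
  Module.Finite.of_surjective (pr X L hL k).toLinearMap pr_surj

instance gradedMonoidQ : SetLike.GradedMonoid (HQ X L hL k) where
  one_mem := ⟨1, SetLike.one_mem_graded X.H, map_one (pr X L hL k)⟩
  mul_mem := by
    rintro i j _ _ ⟨x, hx, rfl⟩ ⟨y, hy, rfl⟩
    exact ⟨x * y, SetLike.mul_mem_graded hx hy, map_mul (pr X L hL k) x y⟩

theorem internalQ : DirectSum.IsInternal (HQ X L hL k) := by
  classical
  rw [DirectSum.isInternal_submodule_iff_iSupIndep_and_iSup_eq_top]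
  constructor
  · rw [iSupIndep_iff_dfinsupp_lsum_injective]
    rw [injective_iff_map_eq_zero]
    intro f hf
    -- lift the components
    have hc : ∀ i, ∃ x ∈ X.H i, pr X L hL k x = f i := fun i => mem_HQ.1 (f i).2
    choose g hg hgf using hc
    have hsum : pr X L hL k (∑ i ∈ f.support, g i) = 0 := by
      rw [map_sum, ← hf, DFinsupp.lsum_apply_apply, DFinsupp.sumAddHom_apply, DFinsupp.sum]
      refine Finset.sum_congr rfl fun i _ => ?_
      rw [hgf]
      rfl
    rw [pr_zero, Finset.mul_sum] at hsum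
    have hz : ∀ i ∈ f.support, L ^ k * g i = 0 := by
      intro i hi
      have hmem : ∀ j, L ^ k * g j ∈ X.H (j.1 + k, j.2 + k) := fun j =>
        X.pow_mul_mem hL k (hg j)
      have hproj := congrArg (fun z => ((DirectSum.decompose X.H z (i.1 + k, i.2 + k) :
        X.H (i.1 + k, i.2 + k)) : X.R)) hsum
      simp only [DirectSum.decompose_sum, DirectSum.decompose_zero] at hproj
      rw [DFinsupp.finsetSum_apply, AddSubmonoidClass.coe_finsetSum, Finset.sum_eq_single i] at hproj
      · rw [DirectSum.decompose_of_mem_same _ (hmem i)] at hproj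
        simpa using hproj
      · intro j _ hji
        refine DirectSum.decompose_of_mem_ne _ (hmem j) fun h => hji ?_
        rw [Prod.mk.injEq] at h
        exact Prod.ext (by omega) (by omega)
      · intro h
        exact absurd hi h
    ext i
    by_cases hi : i ∈ f.support
    · have h1 := pr_zero (hL := hL).2 (hz i hi)
      rw [hgf] at h1
      rw [h1]
      rfl
    · rw [DFinsupp.notMem_support_iff] at hi
      rw [hi]
      rfl
  · rw [eq_top_iff]
    rintro a -
    obtain ⟨x, rfl⟩ := pr_surj a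
    refine X.ind (P := fun x => pr X L hL k x ∈ iSup (HQ X L hL k)) ?_ ?_ ?_ x
    · rw [map_zero]
      exact Submodule.zero_mem _
    · intro x y hx hy
      rw [map_add]
      exact Submodule.add_mem _ hx hy
    · intro p q x hx
      exact Submodule.mem_iSup_of_mem (p, q) (pr_mem hx)

noncomputable instance gradedQ : GradedRing (HQ X L hL k) :=
  { gradedMonoidQ, internalQ.chooseDecomposition with }

end Pool.Agent.N214.QR
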