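import Pool.Agent.N214.QR.Quot

/-!
# The Hodge theory of the quotient ring
-/

open scoped ComplexConjugate
open Module

namespace Pool.Agent.N214.QR

open Pool.Agent.W539.DI Pool.Agent.R929.DH

theorem finrank_map_add {V W : Type*} [AddCommGroup V] [Module ℂ V] [FiniteDimensional ℂ V]
    [AddCommGroup W] [Module ℂ W] (f : V →ₗ[ℂ] W) (S : Submodule ℂ V) :
    finrank ℂ (Submodule.map f S) + finrank ℂ (S ⊓ LinearMap.ker f : Submodule ℂ V) =
      finrank ℂ S := by
  have h := LinearMap.finrank_range_add_finrank_ker (f.domRestrict S)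
  rw [LinearMap.range_domRestrict] at h
  rw [← h]
  congr 1
  have e : LinearMap.ker (f.domRestrict S) = Submodule.comap S.subtype (S ⊓ LinearMap.ker f) := by
    ext x
    simp [LinearMap.mem_ker]
  rw [e]
  exact (Submodule.comapSubtypeEquivOfLe (p := S ⊓ LinearMap.ker f) (q := S)
    inf_le_left).finrank_eq.symm

theorem finrank_map_congr {V W W' : Type*} [AddCommGroup V] [Module ℂ V] [FiniteDimensional ℂ V]
    [AddCommGroup W] [Module ℂ W] [AddCommGroup W'] [Module ℂ W'] (f : V →ₗ[ℂ] W) (g : V →ₗ[ℂ] W')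
    (h : ∀ x, f x = 0 ↔ g x = 0) (S : Submodule ℂ V) :
    finrank ℂ (Submodule.map f S) = finrank ℂ (Submodule.map g S) := by
  have h1 := finrank_map_add f S
  have h2 := finrank_map_add g S
  have e : LinearMap.ker f = LinearMap.ker g := by
    ext x
    exact h x
  rw [e] at h1
  omega

variable {n : ℕ} {X : KRing n} {L : X.R} {hL : L ∈ X.H (1, 1)} {k : ℕ}

theorem finrank_HQ (p q : ℤ) : finrank ℂ (HQ X L hL k (p, q)) = powRank X L k p q := by
  unfold HQ powRank
  refine finrank_map_congr _ _ (fun x => ?_) _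
  exact pr_zero

/-- Complex conjugation. -/
noncomputable def barQ (X : KRing n) (L : X.R) (hL : L ∈ X.H (1, 1)) (hb : X.bar L = L) (k : ℕ) :
    Qt X L hL k →ₛₗ[starRingEnd ℂ] Qt X L hL k :=
  liftS (pr X L hL k).toLinearMap pr_surj ((pr X L hL k).toLinearMap.comp X.bar) (fun x hx => by
    have h1 : L ^ k * x = 0 := pr_zero.1 hx
    show pr X L hL k (X.bar x) = 0
    rw [pr_zero, ← bar_pow hb, h1, map_zero])

theorem barQ_apply (hb : X.bar L = L) (x : X.R) :
    barQ X L hL hb k (pr X L hL k x) = pr X L hL k (X.bar x) :=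
  liftS_apply _ _ _ _ x

/-- Integration. -/
noncomputable def trQ (X : KRing n) (L : X.R) (hL : L ∈ X.H (1, 1)) (k : ℕ) :
    Qt X L hL k →ₗ[ℂ] ℂ :=
  liftS (pr X L hL k).toLinearMap pr_surj (X.tr.comp (LinearMap.mulLeft ℂ (L ^ k))) (fun x hx => by
    have h1 : L ^ k * x = 0 := pr_zero.1 hx
    show X.tr (L ^ k * x) = 0
    rw [h1, map_zero])

theorem trQ_apply (x : X.R) : trQ X L hL k (pr X L hL k x) = X.tr (L ^ k * x) :=
  liftS_apply _ _ _ _ x

theorem pdQ {m : ℕ} (hm : m + k = n) (p q : ℤ) (a : Qt X L hL k) (ha : a ∈ HQ X L hL k (p, q))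
    (h : ∀ b ∈ HQ X L hL k (m - p, m - q), trQ X L hL k (a * b) = 0) : a = 0 := by
  obtain ⟨x, hx, rfl⟩ := mem_HQ.1 ha
  rw [pr_zero]
  refine X.pd (p + k) (q + k) _ (X.pow_mul_mem hL k hx) fun y hy => ?_
  have e : ((n : ℤ) - (p + k), (n : ℤ) - (q + k)) = ((m : ℤ) - p, (m : ℤ) - q) := by
    rw [← hm]
    push_cast
    ext <;> simp
  rw [e] at hy
  have := h (pr X L hL k y) (pr_mem hy)
  rw [← map_mul, trQ_apply, ← mul_assoc] at this
  exact this

theorem commQ (p q p' q' : ℤ) (a b : Qt X L hL k) (ha : a ∈ HQ X L hL k (p, q))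
    (hb : b ∈ HQ X L hL k (p', q')) :
    a * b = ((-1 : ℂ) ^ ((p + q) * (p' + q'))) • (b * a) := by
  obtain ⟨x, hx, rfl⟩ := mem_HQ.1 ha
  obtain ⟨y, hy, rfl⟩ := mem_HQ.1 hb
  rw [← map_mul, X.comm p q p' q' x y hx hy, map_smul, map_mul]

theorem pd_le {m : ℕ} (hm : m + k = n) (p q : ℤ) :
    finrank ℂ (HQ X L hL k (p, q)) ≤ finrank ℂ (HQ X L hL k (m - p, m - q)) := by
  let f : HQ X L hL k (p, q) →ₗ[ℂ] Dual ℂ (HQ X L hL k (m - p, m - q)) :=
    LinearMap.mk₂ ℂ (fun a b => trQ X L hL k ((a : Qt X L hL k) * (b : Qt X L hL k)))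
      (fun a a' b => by simp [add_mul]) (fun c a b => by simp)
      (fun a b b' => by simp [mul_add]) (fun c a b => by simp)
  have hf : Function.Injective f := by
    rw [injective_iff_map_eq_zero]
    intro a ha
    apply Subtype.ext
    refine pdQ hm p q _ a.2 fun b hb => ?_
    exact congrArg (fun g : Dual ℂ (HQ X L hL k (m - p, m - q)) => g ⟨b, hb⟩) ha
  have h1 := LinearMap.finrank_le_finrank_of_injective hf
  rwa [Subspace.dual_finrank_eq] at h1

theorem pd_eq {m : ℕ} (hm : m + k = n) (p q : ℤ) :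
    finrank ℂ (HQ X L hL k (p, q)) = finrank ℂ (HQ X L hL k (m - p, m - q)) := by
  apply le_antisymm (pd_le hm p q)
  have := pd_le (X := X) (hL := hL) hm (m - p) (m - q)
  rwa [sub_sub_cancel, sub_sub_cancel] at this

theorem hl_injQ (hS : Semiample X L) {m : ℕ} (hm : m + k = n) (p q : ℤ) (l : ℕ)
    (hpq : p + q + l = m) (a : Qt X L hS.mem k) (ha : a ∈ HQ X L hS.mem k (p, q))
    (h : (pr X L hS.mem k X.ω) ^ l * a = 0) : a = 0 := by
  obtain ⟨x, hx, rfl⟩ := mem_HQ.1 ha
  rw [← map_pow, ← map_mul, pr_zero] at h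
  by_contra hne
  have hne' : L ^ k * x ≠ 0 := fun h0 => hne (pr_zero.2 h0)
  have e1 : X.ω ^ l * (L ^ k * x) = 0 := by
    rw [← mul_assoc, ← pow_central hS.mem, mul_assoc, h]
  obtain ⟨r, hr, hrr⟩ := hS.hr p q k l (by omega) x hx (by
    rw [pow_succ', mul_assoc, e1, mul_zero]) hne'
  have e2 : L ^ k * (X.ω ^ l * (x * X.bar x)) = 0 := by
    rw [← mul_assoc (X.ω ^ l), ← mul_assoc, h, zero_mul]
  rw [e2, map_zero, mul_zero] at hrr
  have : (0 : ℝ) = r := by exact_mod_cast hrr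
  exact hr.ne this

theorem hl_le (hS : Semiample X L) {m : ℕ} (hm : m + k = n) (p q : ℤ) (l : ℕ)
    (hpq : p + q + l = m) :
    finrank ℂ (HQ X L hS.mem k (p, q)) ≤ finrank ℂ (HQ X L hS.mem k (p + l, q + l)) := by
  have hmem : ∀ a ∈ HQ X L hS.mem k (p, q),
      (pr X L hS.mem k X.ω) ^ l * a ∈ HQ X L hS.mem k (p + l, q + l) := by
    intro a ha
    obtain ⟨x, hx, rfl⟩ := mem_HQ.1 ha
    rw [← map_pow, ← map_mul]
    exact pr_mem (X.pow_mul_mem X.ω_mem l hx)
  let f : HQ X L hS.mem k (p, q) →ₗ[ℂ] HQ X L hS.mem k (p + l, q + l) :=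
    { toFun := fun a => ⟨(pr X L hS.mem k X.ω) ^ l * (a : Qt X L hS.mem k), hmem a a.2⟩
      map_add' := fun a b => by
        ext
        simp [mul_add]
      map_smul' := fun c a => by
        ext
        simp }
  have hf : Function.Injective f := by
    rw [injective_iff_map_eq_zero]
    intro a ha
    apply Subtype.ext
    exact hl_injQ hS hm p q l hpq _ a.2 (congrArg Subtype.val ha)
  exact LinearMap.finrank_le_finrank_of_injective hf

theorem hl_surjQ (hS : Semiample X L) {m : ℕ} (hm : m + k = n) (p q : ℤ) (l : ℕ)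
    (hpq : p + q + l = m) (b : Qt X L hS.mem k) (hb : b ∈ HQ X L hS.mem k (p + l, q + l)) :
    ∃ a ∈ HQ X L hS.mem k (p, q), (pr X L hS.mem k X.ω) ^ l * a = b := by
  have hmem : ∀ a ∈ HQ X L hS.mem k (p, q),
      (pr X L hS.mem k X.ω) ^ l * a ∈ HQ X L hS.mem k (p + l, q + l) := by
    intro a ha
    obtain ⟨x, hx, rfl⟩ := mem_HQ.1 ha
    rw [← map_pow, ← map_mul]
    exact pr_mem (X.pow_mul_mem X.ω_mem l hx)
  let f : HQ X L hS.mem k (p, q) →ₗ[ℂ] HQ X L hS.mem k (p + l, q + l) :=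
    { toFun := fun a => ⟨(pr X L hS.mem k X.ω) ^ l * (a : Qt X L hS.mem k), hmem a a.2⟩
      map_add' := fun a b => by
        ext
        simp [mul_add]
      map_smul' := fun c a => by
        ext
        simp }
  have hf : Function.Injective f := by
    rw [injective_iff_map_eq_zero]
    intro a ha
    apply Subtype.ext
    exact hl_injQ hS hm p q l hpq _ a.2 (congrArg Subtype.val ha)
  have h1 := hl_le hS hm p q l hpq
  have h2 := hl_le hS hm q p l (by omega)
  have h3 := pd_eq (X := X) (hL := hS.mem) hm (p + l) (q + l)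
  have h4 := pd_eq (X := X) (hL := hS.mem) hm (q + l) (p + l)
  have e1 : ((m : ℤ) - (p + l), (m : ℤ) - (q + l)) = (q, p) := by
    ext <;> simp <;> omega
  have e2 : ((m : ℤ) - (q + l), (m : ℤ) - (p + l)) = (p, q) := by
    ext <;> simp <;> omega
  rw [e1] at h3
  rw [e2] at h4
  have hs : Function.Surjective f :=
    (LinearMap.injective_iff_surjective_of_finrank_eq_finrank (by omega)).1 hf
  obtain ⟨a, ha⟩ := hs ⟨b, hb⟩
  exact ⟨a, a.2, congrArg Subtype.val ha⟩

/-- **The quotient of the cohomology ring by the annihilator of `L ^ k`.** -/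
noncomputable def quot (X : KRing n) (L : X.R) (hS : Semiample X L) (k m : ℕ) (hm : m + k = n)
    (hne : L ^ k ≠ 0) : KRing m where
  R := Qt X L hS.mem k
  H := HQ X L hS.mem k
  van p q h := by
    unfold HQ
    rw [X.van p q h, Submodule.map_bot]
  conn := by
    have h1 := finrank_map_add (pr X L hS.mem k).toLinearMap (X.H (0, 0))
    have h2 : (X.H (0, 0) ⊓ LinearMap.ker (pr X L hS.mem k).toLinearMap : Submodule ℂ X.R) = ⊥ := by
      rw [eq_bot_iff]
      rintro x ⟨hx, hk⟩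
      have hk' : L ^ k * x = 0 := pr_zero.1 hk
      have h30 : (⟨1, X.one_mem⟩ : X.H (0, 0)) ≠ 0 := by
        intro h0
        apply hne
        have h4 : (1 : X.R) = 0 := congrArg Subtype.val h0
        rw [← mul_one (L ^ k), h4, mul_zero]
      obtain ⟨c, hc⟩ := (finrank_eq_one_iff_of_nonzero' (K := ℂ) _ h30).1 X.conn ⟨x, hx⟩
      have hc' : c • (1 : X.R) = x := congrArg Subtype.val hc
      rw [← hc', mul_smul_comm, mul_one] at hk'
      rcases smul_eq_zero.1 hk' with h5 | h5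
      · rw [← hc', h5, zero_smul]
        exact Submodule.zero_mem _
      · exact absurd h5 hne
    rw [h2, finrank_bot, add_zero, X.conn] at h1
    exact h1
  comm := commQ
  bar := barQ X L hS.mem hS.real k
  bar_bar a := by
    obtain ⟨x, rfl⟩ := pr_surj a
    rw [barQ_apply, barQ_apply, X.bar_bar]
  bar_mul a b := by
    obtain ⟨x, rfl⟩ := pr_surj a
    obtain ⟨y, rfl⟩ := pr_surj b
    rw [← map_mul, barQ_apply, barQ_apply, barQ_apply, X.bar_mul, map_mul]
  bar_mem p q a ha := by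
    obtain ⟨x, hx, rfl⟩ := mem_HQ.1 ha
    rw [barQ_apply]
    exact pr_mem (X.bar_mem p q x hx)
  tr := trQ X L hS.mem k
  tr_van p q a ha h := by
    obtain ⟨x, hx, rfl⟩ := mem_HQ.1 ha
    rw [trQ_apply]
    exact X.tr_van (p + k) (q + k) _ (X.pow_mul_mem hS.mem k hx) (by omega)
  tr_bar a := by
    obtain ⟨x, rfl⟩ := pr_surj a
    rw [barQ_apply, trQ_apply, trQ_apply, ← bar_pow hS.real, X.tr_bar]
  pd := pdQ hm
  ω := pr X L hS.mem k X.ω
  ω_mem := pr_mem X.ω_mem
  ω_bar := by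
    rw [barQ_apply, X.ω_bar]
  hl_inj p q l h a ha h0 := hl_injQ hS hm p q l h a ha h0
  hl_surj p q l h b hb := hl_surjQ hS hm p q l h b hb
  hr p q l h a ha h0 h1 := by
    obtain ⟨x, hx, rfl⟩ := mem_HQ.1 ha
    have hne' : L ^ k * x ≠ 0 := fun h2 => h0 (pr_zero.2 h2)
    rw [← map_pow, ← map_mul, pr_zero] at h1
    obtain ⟨r, hr, hrr⟩ := hS.hr p q k l (by omega) x hx (by
      rw [← mul_assoc, ← pow_central hS.mem, mul_assoc, h1]) hne'
    refine ⟨r, hr, ?_⟩
    rw [← hrr, barQ_apply, ← map_mul, ← map_pow, ← map_mul, trQ_apply]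
  c := pr X L hS.mem k X.c
  c_mem := pr_mem X.c_mem
  c_bar := by
    rw [barQ_apply, X.c_bar]

theorem quot_h (hS : Semiample X L) {m : ℕ} (hm : m + k = n) (hne : L ^ k ≠ 0) (p q : ℤ) :
    (quot X L hS k m hm hne).h p q = powRank X L k p q :=
  finrank_HQ p q

end Pool.Agent.N214.QR
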