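import Pool.Agent.N214.QR.Ring

/-!
# The transform induced on the quotient rings
-/

open scoped ComplexConjugate
open Module

namespace Pool.Agent.N214.QR

open Pool.Agent.W539.DI Pool.Agent.R929.DH

variable {n : ℕ}

section one

variable {X : KRing n} {L : X.R} {k m : ℕ}

/-- The dual of the quotient. -/
noncomputable def dualQ (hS : Semiample X L) (hm : m + k = n) (hne : L ^ k ≠ 0) :
    Qt X L hS.mem k →ₗ[ℂ] Qt X L hS.mem k := (quot X L hS k m hm hne).dual

theorem dualQ_apply (hS : Semiample X L) (hm : m + k = n) (hne : L ^ k ≠ 0) (x : X.R) :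
    dualQ hS hm hne (pr X L hS.mem k x) = pr X L hS.mem k (X.dual x) := by
  refine X.ind (P := fun x => dualQ hS hm hne (pr X L hS.mem k x) =
    pr X L hS.mem k (X.dual x)) ?_ ?_ ?_ x
  · rw [map_zero, map_zero, map_zero, map_zero]
  · intro x y hx hy
    rw [map_add, map_add, map_add, map_add, hx, hy]
  · intro p q x hx
    rw [X.dual_of hx, map_smul]
    exact (quot X L hS k m hm hne).dual_of (p := p) (q := q) (pr_mem hx)

theorem quot_mukai (hS : Semiample X L) (hm : m + k = n) (hne : L ^ k ≠ 0) (x y : X.R) :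
    (quot X L hS k m hm hne).mukai (pr X L hS.mem k x) (pr X L hS.mem k y) =
      X.mukai x (L ^ k * y) := by
  have e : (quot X L hS k m hm hne).mukai (pr X L hS.mem k x) (pr X L hS.mem k y) =
      trQ X L hS.mem k ((∑ j ∈ Finset.range (m + 1), ((1 : ℂ) / (2 ^ j * (j.factorial : ℂ))) •
        (pr X L hS.mem k X.c) ^ j) * (dualQ hS hm hne (pr X L hS.mem k x) *
          pr X L hS.mem k y)) := rfl
  rw [e, dualQ_apply]
  have e2 : (∑ j ∈ Finset.range (m + 1), ((1 : ℂ) / (2 ^ j * (j.factorial : ℂ))) •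
        (pr X L hS.mem k X.c) ^ j) = pr X L hS.mem k
          (∑ j ∈ Finset.range (m + 1), ((1 : ℂ) / (2 ^ j * (j.factorial : ℂ))) • X.c ^ j) := by
    rw [map_sum]
    refine Finset.sum_congr rfl fun j _ => ?_
    rw [map_smul, map_pow]
  rw [e2, ← map_mul, ← map_mul, trQ_apply]
  unfold KRing.mukai KRing.expc
  rw [← mul_assoc (X.dual x), ← pow_central hS.mem, mul_assoc (L ^ k), ← mul_assoc _ (L ^ k),
    ← mul_assoc (L ^ k)]
  congr 2
  rw [Finset.mul_sum, Finset.sum_mul]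
  have hsub : Finset.range (m + 1) ⊆ Finset.range (n + 1) := by
    intro j hj
    rw [Finset.mem_range] at hj ⊢
    omega
  rw [← Finset.sum_subset hsub]
  · refine Finset.sum_congr rfl fun j _ => ?_
    rw [mul_smul_comm, smul_mul_assoc, pow_central hS.mem]
  · intro j hj hj'
    rw [Finset.mem_range] at hj hj'
    have h1 : X.c ^ j * L ^ k ∈ X.H ((k : ℤ) + j, (k : ℤ) + j) :=
      X.pow_mul_mem X.c_mem j (X.pow_mem hS.mem k)
    rw [X.van_top (by left; omega), Submodule.mem_bot] at h1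
    rw [smul_mul_assoc, h1, smul_zero]

end one

variable {X Y : KRing n} {L : X.R} {L' : Y.R} {k m : ℕ}

theorem inter_pow (Φ : FM X Y) (h : Intertwines Φ L L') (k : ℕ) (x : X.R) :
    Φ.φ (L ^ k * x) = L' ^ k * Φ.φ x := by
  induction k with
  | zero => simp
  | succ k ih => rw [pow_succ', mul_assoc, h, ih, pow_succ', mul_assoc]

theorem inter_pow_symm (Φ : FM X Y) (h : Intertwines Φ L L') (k : ℕ) (y : Y.R) :
    Φ.φ.symm (L' ^ k * y) = L ^ k * Φ.φ.symm y := by
  apply Φ.φ.injective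
  rw [inter_pow Φ h, LinearEquiv.apply_symm_apply, LinearEquiv.apply_symm_apply]

/-- The induced map. -/
noncomputable def mapQ (Φ : FM X Y) (h : Intertwines Φ L L') (hL : L ∈ X.H (1, 1))
    (hL' : L' ∈ Y.H (1, 1)) (k : ℕ) : Qt X L hL k →ₗ[ℂ] Qt Y L' hL' k :=
  liftS (pr X L hL k).toLinearMap pr_surj ((pr Y L' hL' k).toLinearMap.comp Φ.φ.toLinearMap)
    (fun x hx => by
      have h1 : L ^ k * x = 0 := pr_zero.1 hx
      show pr Y L' hL' k (Φ.φ x) = 0
      rw [pr_zero, ← inter_pow Φ h, h1, map_zero])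

theorem mapQ_apply (Φ : FM X Y) (h : Intertwines Φ L L') (hL : L ∈ X.H (1, 1))
    (hL' : L' ∈ Y.H (1, 1)) (x : X.R) :
    mapQ Φ h hL hL' k (pr X L hL k x) = pr Y L' hL' k (Φ.φ x) :=
  liftS_apply _ _ _ _ x

/-- The induced inverse map. -/
noncomputable def invQ (Φ : FM X Y) (h : Intertwines Φ L L') (hL : L ∈ X.H (1, 1))
    (hL' : L' ∈ Y.H (1, 1)) (k : ℕ) : Qt Y L' hL' k →ₗ[ℂ] Qt X L hL k :=
  liftS (pr Y L' hL' k).toLinearMap pr_surj ((pr X L hL k).toLinearMap.comp Φ.φ.symm.toLinearMap)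
    (fun y hy => by
      have h1 : L' ^ k * y = 0 := pr_zero.1 hy
      show pr X L hL k (Φ.φ.symm y) = 0
      rw [pr_zero, ← inter_pow_symm Φ h, h1, map_zero])

theorem invQ_apply (Φ : FM X Y) (h : Intertwines Φ L L') (hL : L ∈ X.H (1, 1))
    (hL' : L' ∈ Y.H (1, 1)) (y : Y.R) :
    invQ Φ h hL hL' k (pr Y L' hL' k y) = pr X L hL k (Φ.φ.symm y) :=
  liftS_apply _ _ _ _ y

/-- The induced isomorphism. -/
noncomputable def equivQ (Φ : FM X Y) (h : Intertwines Φ L L') (hL : L ∈ X.H (1, 1))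
    (hL' : L' ∈ Y.H (1, 1)) (k : ℕ) : Qt X L hL k ≃ₗ[ℂ] Qt Y L' hL' k :=
  { mapQ Φ h hL hL' k with
    invFun := invQ Φ h hL hL' k
    left_inv := fun a => by
      obtain ⟨x, rfl⟩ := pr_surj a
      show invQ Φ h hL hL' k (mapQ Φ h hL hL' k (pr X L hL k x)) = pr X L hL k x
      rw [mapQ_apply, invQ_apply, LinearEquiv.symm_apply_apply]
    right_inv := fun b => by
      obtain ⟨y, rfl⟩ := pr_surj b
      show mapQ Φ h hL hL' k (invQ Φ h hL hL' k (pr Y L' hL' k y)) = pr Y L' hL' k y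
      rw [invQ_apply, mapQ_apply, LinearEquiv.apply_symm_apply] }

theorem equivQ_apply (Φ : FM X Y) (h : Intertwines Φ L L') (hL : L ∈ X.H (1, 1))
    (hL' : L' ∈ Y.H (1, 1)) (x : X.R) :
    equivQ Φ h hL hL' k (pr X L hL k x) = pr Y L' hL' k (Φ.φ x) :=
  mapQ_apply Φ h hL hL' x

theorem iSup_HQ (X : KRing n) (L : X.R) (hL : L ∈ X.H (1, 1)) (k : ℕ) (p q : ℤ) :
    (⨆ j : ℤ, HQ X L hL k (p + j, q + j)) =
      Submodule.map (pr X L hL k).toLinearMap (⨆ j : ℤ, X.H (p + j, q + j)) := by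
  unfold HQ
  rw [Submodule.map_iSup]

/-- **The transform of the quotient rings.** -/
noncomputable def quotFM (Φ : FM X Y) (h : Intertwines Φ L L') (hX : Semiample X L)
    (hY : Semiample Y L') (hm : m + k = n) (hne : L ^ k ≠ 0) (hne' : L' ^ k ≠ 0) :
    FM (quot X L hX k m hm hne) (quot Y L' hY k m hm hne') where
  φ := equivQ Φ h hX.mem hY.mem k
  real a := by
    obtain ⟨x, rfl⟩ := pr_surj (X := X) (L := L) (hL := hX.mem) (k := k) a
    show equivQ Φ h hX.mem hY.mem k (barQ X L hX.mem hX.real k (pr X L hX.mem k x)) =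
      barQ Y L' hY.mem hY.real k (equivQ Φ h hX.mem hY.mem k (pr X L hX.mem k x))
    rw [barQ_apply, equivQ_apply, equivQ_apply, barQ_apply, Φ.real]
  hodge p q := by
    show Submodule.map (equivQ Φ h hX.mem hY.mem k).toLinearMap
      (⨆ j : ℤ, HQ X L hX.mem k (p + j, q + j)) = ⨆ j : ℤ, HQ Y L' hY.mem k (p + j, q + j)
    rw [iSup_HQ, iSup_HQ, ← Φ.hodge p q, ← Submodule.map_comp, ← Submodule.map_comp]
    congr 1
    ext x
    exact equivQ_apply Φ h hX.mem hY.mem x
  isom a b := by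
    obtain ⟨x, rfl⟩ := pr_surj (X := X) (L := L) (hL := hX.mem) (k := k) a
    obtain ⟨y, rfl⟩ := pr_surj (X := X) (L := L) (hL := hX.mem) (k := k) b
    show (quot Y L' hY k m hm hne').mukai (equivQ Φ h hX.mem hY.mem k (pr X L hX.mem k x))
      (equivQ Φ h hX.mem hY.mem k (pr X L hX.mem k y)) = _
    rw [equivQ_apply, equivQ_apply, quot_mukai, quot_mukai, ← inter_pow Φ h, Φ.isom]

theorem pow_ne_iff (Φ : FM X Y) (h : Intertwines Φ L L') (k : ℕ) : L ^ k = 0 ↔ L' ^ k = 0 := by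
  constructor
  · intro h0
    have := inter_pow Φ h k (Φ.φ.symm 1)
    rw [h0, zero_mul, map_zero, LinearEquiv.apply_symm_apply, mul_one] at this
    exact this.symm
  · intro h0
    have := inter_pow Φ h k 1
    rw [h0, zero_mul, mul_one] at this
    exact (LinearEquiv.map_eq_zero_iff Φ.φ).1 this

theorem powRank_zero {X : KRing n} {L : X.R} {k : ℕ} (h : L ^ k = 0) (p q : ℤ) :
    powRank X L k p q = 0 := by
  unfold powRank
  have e : LinearMap.mulLeft ℂ (L ^ k) = 0 := by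
    ext x
    simp [h]
  rw [e, Submodule.map_zero, finrank_bot]

end Pool.Agent.N214.QR
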